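import Mathlib

set_option autoImplicit false

namespace Pool.Agent.H.MP_cd40e2_lc

open Finset
open scoped BigOperators

def s (b : Bool) : ℝ := if b then 1 else -1

@[simp] theorem s_sq (b : Bool) : s b * s b = 1 := by cases b <;> simp [s]
@[simp] theorem abs_s (b : Bool) : |s b| = 1 := by cases b <;> simp [s]
@[simp] theorem s_not (b : Bool) : s (!b) = - s b := by cases b <;> simp [s]
@[simp] theorem s_beq (a b : Bool) : s (a == b) = s a * s b := by cases a <;> cases b <;> simp [s]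

section
variable {ι : Type} [Fintype ι] [DecidableEq ι]

theorem ex_prod {α : Type} [Fintype α] (φ : ι → α → ℝ) : 𝔼 x : ι → α, ∏ i, φ i (x i) = ∏ i, 𝔼 a, φ i a := by
  simp only [expect_eq_sum_div_card, prod_div_distrib, prod_univ_sum, Fintype.piFinset_univ]
  simp

theorem ex_bool (φ : Bool → ℝ) : 𝔼 b, φ b = (φ true + φ false) / 2 := by simp [expect_eq_sum_div_card]

def χ (S : Finset ι) (x : ι → Bool) : ℝ := ∏ i ∈ S, s (x i)

theorem prod_mem (S : Finset ι) (φ : ι → ℝ) : ∏ i ∈ S, φ i = ∏ i, if i ∈ S then φ i else 1 := by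
  simp [prod_ite_mem]

noncomputable def co (g : (ι → Bool) → ℝ) (S : Finset ι) : ℝ := 𝔼 x, g x * χ S x

theorem expand (g : (ι → Bool) → ℝ) (x) : g x = ∑ S, co g S * χ S x := by
  have k : ∀ y, ∑ S, χ S y * χ S x = if x = y then (Fintype.card (ι → Bool) : ℝ) else 0 := fun y => by
    simp only [χ, ← prod_mul_distrib]
    rw [← powerset_univ, ← prod_one_add]
    split_ifs with e
    · simp [e]; norm_num
    · obtain ⟨i, hi⟩ := Function.ne_iff.1 e
      exact prod_eq_zero (mem_univ i) (by revert hi; cases x i <;> cases y i <;> simp [s])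
  simp only [co, expect_mul, ← expect_sum_comm, mul_assoc, ← mul_sum, k]
  simp [expect_eq_sum_div_card]

theorem parseval (g : (ι → Bool) → ℝ) : ∑ S, co g S ^ 2 = 𝔼 x, g x * g x := by
  conv_rhs => enter [2, x]; rw [expand g x]; enter [1]; rw [← expand g x]
  simp only [mul_sum, expect_sum_comm, mul_left_comm (g _), ← mul_expect, sq]
  rfl

theorem stab {κ : Type} [Fintype κ] [Nonempty κ] (g : (ι → Bool) → ℝ) (t : κ → Bool) :
    𝔼 h : ι → κ, 𝔼 x, g x * g (fun i => t (h i) == x i) = ∑ S, co g S ^ 2 * (𝔼 b, s (t b)) ^ S.card := by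
  conv_lhs => enter [2, h, 2, x, 2]; rw [expand g]
  simp only [mul_sum, expect_sum_comm, χ, s_beq, prod_mul_distrib]
  refine sum_congr rfl fun S _ => ?_
  have e : ∀ (h : ι → κ) (x : ι → Bool), g x * (co g S * ((∏ i ∈ S, s (t (h i))) * ∏ i ∈ S, s (x i))) =
    co g S * (∏ i ∈ S, s (t (h i))) * (g x * χ S x) := fun h x => by simp only [χ]; ring
  simp only [e, ← mul_expect, ← expect_mul]
  rw [show 𝔼 x, g x * χ S x = co g S from rfl]
  simp only [prod_mem S]
  rw [ex_prod fun i b => if i ∈ S then s (t b) else 1, ← prod_const, prod_mem S, mul_right_comm, sq]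
  refine congrArg _ (prod_congr rfl fun i _ => ?_)
  split_ifs <;> simp [Fintype.expect_const]

def flip (i : ι) (x : ι → Bool) : ι → Bool := Function.update x i (!x i)

theorem ex_flip (i : ι) (φ : (ι → Bool) → ℝ) : 𝔼 x, φ (flip i x) = 𝔼 x, φ x :=
  Fintype.expect_bijective _ (Function.Involutive.bijective (f := flip i) fun x => by simp [flip]) _ _ fun _ => rfl

theorem ex_ss (i j : ι) : 𝔼 x : ι → Bool, s (x i) * s (x j) = if i = j then 1 else 0 := by
  split_ifs with e
  · simp [e, Fintype.expect_const]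
  · have := ex_flip i fun x => s (x i) * s (x j)
    simp [flip, Function.update_of_ne (Ne.symm e), expect_neg_distrib] at this
    linarith

def L (w : ι → ℝ) (x : ι → Bool) : ℝ := ∑ i, w i * s (x i)

theorem ex_sq (w : ι → ℝ) : 𝔼 x, L w x ^ 2 = ∑ i, w i ^ 2 := by
  simp only [L, sq, sum_mul_sum, expect_sum_comm, mul_mul_mul_comm (w _), ← mul_expect, ex_ss]
  simp

theorem L_flip (w : ι → ℝ) (i x) : L w (flip i x) = L w x - 2 * (w i * s (x i)) := by
  simp only [L, ← add_sum_erase _ _ (mem_univ i)]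
  rw [sum_congr rfl fun j hj => by rw [flip, Function.update_of_ne (ne_of_mem_erase hj)]]
  simp [flip]; ring

noncomputable def cl (a y : ℝ) : ℝ := max (-a) (min a y)

theorem anti (w : ι → ℝ) (θ : ℝ) :
    (𝔼 x, if |L w x - θ| ≤ 1 then (1 : ℝ) else 0) ^ 2 * ∑ i, cl 1 (w i) ^ 2 ≤ 9 := by
  set P := 𝔼 x, if |L w x - θ| ≤ 1 then (1 : ℝ) else 0
  set D := ∑ i, cl 1 (w i) ^ 2
  have k : ∀ i, P * cl 1 (w i) ^ 2 ≤ 𝔼 x, cl 3 (L w x - θ) * (cl 1 (w i) * s (x i)) := fun i => by
    have e := ex_flip i fun x => cl 3 (L w x - θ) * (cl 1 (w i) * s (x i))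
    have : 𝔼 x, (if |L w x - θ| ≤ 1 then (1 : ℝ) else 0) * (2 * cl 1 (w i) ^ 2) ≤
        𝔼 x, (cl 3 (L w x - θ) * (cl 1 (w i) * s (x i)) +
          cl 3 (L w (flip i x) - θ) * (cl 1 (w i) * s (flip i x i))) := expect_le_expect fun x _ => by
      rw [L_flip, sub_right_comm]
      simp only [flip, Function.update_self, s_not]
      generalize L w x - θ = y
      have h : cl 1 (w i) * s (x i) = cl 1 (w i * s (x i)) := by
        cases x i <;> simp only [s, cl, max_def, min_def] <;> split_ifs <;> simp_all <;> linarith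
      have h2 : cl 1 (w i) ^ 2 = cl 1 (w i * s (x i)) ^ 2 := by rw [← h, mul_pow, sq (s _), s_sq, mul_one]
      rw [mul_neg, h, h2]
      generalize w i * s (x i) = z
      simp only [cl, abs_le, max_def, min_def]
      split_ifs <;> nlinarith
    rw [expect_add_distrib, e, ← expect_mul] at this
    linarith
  have k2 : P * D ≤ 𝔼 x, cl 3 (L w x - θ) * L (fun i => cl 1 (w i)) x := by
    simp only [D, L, mul_sum, expect_sum_comm] at k ⊢
    exact sum_le_sum fun i _ => k i
  have k3 := expect_mul_sq_le_sq_mul_sq univ (fun x => cl 3 (L w x - θ)) (L fun i => cl 1 (w i))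
  rw [ex_sq] at k3
  have k4 : 𝔼 x, cl 3 (L w x - θ) ^ 2 ≤ 9 := expect_le univ_nonempty fun x _ => by
    simp only [cl, max_def, min_def]; split_ifs <;> nlinarith
  have hD : 0 ≤ D := by positivity
  have hP : 0 ≤ P := expect_nonneg fun _ _ => by split_ifs <;> simp
  have k5 : (P * D) ^ 2 ≤ 9 * D :=
    ((pow_le_pow_left₀ (by positivity) k2 2).trans k3).trans (mul_le_mul_of_nonneg_right k4 hD)
  rcases hD.eq_or_lt with e | e
  · simp [← e]
  · exact le_of_mul_le_mul_right (by nlinarith) e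
end

theorem hoff {V J : Type} [NormedAddCommGroup V] [NormedSpace ℝ V] [FiniteDimensional ℝ V] [Fintype J]
    (a : J → V →ₗ[ℝ] ℝ) : ∃ C, 0 ≤ C ∧ ∀ (P : Set J) (b : J → ℝ) (T : ℝ) (u₀ : V), 0 ≤ T → (∀ j, |b j| ≤ T) →
      (∀ j ∈ P, b j ≤ a j u₀) → ∃ u, (∀ j ∈ P, b j ≤ a j u) ∧ ‖u‖ ≤ C * T := by
  classical
  have : ∀ I : Finset J, ∃ C, 0 ≤ C ∧ ∀ u T, 0 ≤ T → (∀ j ∈ I, |a j u| ≤ T) →
      ∃ v, (∀ j ∈ I, a j v = a j u) ∧ ‖v‖ ≤ C * T := fun I => by
    let A : V →ₗ[ℝ] I → ℝ := LinearMap.pi fun j => a j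
    obtain ⟨R, hR⟩ := A.rangeRestrict.exists_rightInverse_of_surjective A.range_rangeRestrict
    refine ⟨‖R.toContinuousLinearMap‖, ContinuousLinearMap.opNorm_nonneg _, fun u T hT h => ⟨R (A.rangeRestrict u), fun j hj => ?_, ?_⟩⟩
    · exact congrFun (congrArg Subtype.val (LinearMap.congr_fun hR (A.rangeRestrict u))) ⟨j, hj⟩
    · exact (R.toContinuousLinearMap.le_opNorm _).trans (mul_le_mul_of_nonneg_left
        ((pi_norm_le_iff_of_nonneg hT).2 fun j => h j j.2) (ContinuousLinearMap.opNorm_nonneg _))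
  choose C c0 hC using this
  refine ⟨∑ I, C I, sum_nonneg fun I _ => c0 I, fun P b T u₀ hT hb h0 => ?_⟩
  let I : V → Finset J := fun u => {j | j ∈ P ∧ a j u = b j}
  obtain ⟨u, hu, mx⟩ := Set.Finite.exists_maximalFor' I {u | ∀ j ∈ P, b j ≤ a j u} (Set.toFinite _) ⟨u₀, h0⟩
  obtain ⟨v, v1, v2⟩ := hC (I u) u T hT fun j hj => (mem_filter.1 hj).2.2 ▸ hb j
  refine ⟨v, by_contra fun n => ?_, v2.trans (mul_le_mul_of_nonneg_right
    (single_le_sum (fun I _ => c0 I) (mem_univ _)) hT)⟩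
  push Not at n
  obtain ⟨j, hj, mn⟩ := exists_min_image (filter (fun j => j ∈ P ∧ a j v < b j) univ)
    (fun j => (a j u - b j) / (a j u - a j v)) (n.imp fun j hj => by simpa using hj)
  simp only [mem_filter, mem_univ, true_and] at hj mn
  set t := (a j u - b j) / (a j u - a j v) with ht
  have p : 0 < a j u - a j v := by linarith [hu j hj.1]
  have t0 : 0 ≤ t := div_nonneg (by linarith [hu j hj.1]) p.le
  have t1 : t ≤ 1 := (div_le_one p).2 (by linarith)
  have e : ∀ i, a i (u + t • (v - u)) = a i u - t * (a i u - a i v) := fun i => by simp; ring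
  have f : ∀ i ∈ P, b i ≤ a i (u + t • (v - u)) := fun i hi => by
    rw [e]
    have := hu i hi
    by_cases c : a i v < b i
    · have := (le_div_iff₀ (by linarith)).1 (mn i ⟨hi, c⟩); linarith
    · nlinarith
  have : j ∈ I u := mx f (fun i hi => by
      have := mem_filter.1 hi
      exact mem_filter.2 ⟨this.1, this.2.1, by rw [e, v1 i hi]; simp [this.2.2]⟩)
    (mem_filter.2 ⟨mem_univ _, hj.1, by rw [e, ht, div_mul_cancel₀ _ p.ne']; ring⟩)
  linarith [v1 j this, hu j hj.1]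

end Pool.Agent.H.MP_cd40e2_lc
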