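import Pool.Agent.H.MP_cd40e2_lc.A

set_option autoImplicit false

namespace Pool.Agent.H.MP_cd40e2_lc

open Finset
open scoped BigOperators

def aff {k : ℕ} (y : Fin k → Bool) : (Option (Fin k) → ℝ) →ₗ[ℝ] ℝ :=
  ∑ o : Option (Fin k), (o.elim 1 fun j => s (y j) : ℝ) • LinearMap.proj o

theorem aff_apply {k : ℕ} (y : Fin k → Bool) (u) : aff y u = u none + ∑ j, u (some j) * s (y j) := by
  simp [aff, Fintype.sum_option, mul_comm]

theorem head (k : ℕ) : ∃ C, 0 ≤ C ∧ ∀ (u₀ : Option (Fin k) → ℝ) (T : ℝ), 0 ≤ T → ∃ u : Option (Fin k) → ℝ,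
    (∀ o, |u o| ≤ C * T) ∧ ∀ y, (|aff y u₀| ≤ T → aff y u = aff y u₀) ∧ (T ≤ aff y u₀ → T ≤ aff y u) ∧
      (aff y u₀ ≤ -T → aff y u ≤ -T) := by
  obtain ⟨C, c0, h⟩ := hoff fun j : (Fin k → Bool) × Bool => s j.2 • aff j.1
  refine ⟨C, c0, fun u₀ T hT => ?_⟩
  obtain ⟨u, h1, h2⟩ := h {j | -T ≤ s j.2 * aff j.1 u₀} (fun j => cl T (s j.2 * aff j.1 u₀)) T u₀ hT
    (fun j => abs_le.2 ⟨le_max_left _ _, max_le (by linarith) (min_le_left _ _)⟩)
    fun j hj => max_le hj (min_le_right _ _)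
  refine ⟨u, fun o => (norm_le_pi_norm u o).trans h2, fun y => ?_⟩
  have a := h1 (y, true)
  have b := h1 (y, false)
  simp only [s, cl, Set.mem_setOf_eq, LinearMap.smul_apply, smul_eq_mul, max_le_iff, min_le_iff, abs_le] at a b ⊢
  simp at a b
  refine ⟨fun e => ?_, fun e => ?_, fun e => ?_⟩
  · have := (a e.1).2; have := (b e.2).2; grind
  · have := (a (by linarith)).2; grind
  · have := (b (by linarith)).2; grind

variable {ι : Type} [Fintype ι] [DecidableEq ι]

noncomputable def N1 (g : (ι → Bool) → ℝ) : ℝ := (𝔼 x, g x) ^ 2 + ∑ i, (𝔼 x, g x * s (x i)) ^ 2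

theorem pt {F l a a' τ T M : ℝ} (hT : 2 ≤ T) (hM : 0 ≤ M) (hF : F = 1 ∨ F = -1) (h : 0 < F * l) (e : l = a + τ)
    (h0 : |a'| ≤ M * T) (h1 : |a| ≤ T → a' = a) (h2 : T ≤ a → T ≤ a') (h3 : a ≤ -T → a' ≤ -T) :
    1 - (if |l| < 1 then 1 else 0) - (4 * M + 4) / T * τ ^ 2 ≤ F * (a' + τ) := by
  have p : 0 ≤ (4 * M + 4) / T * τ ^ 2 := by positivity
  have q : (0 : ℝ) ≤ if |l| < 1 then 1 else 0 := by split_ifs <;> simp
  by_cases c : |τ| ≤ T / 2
  · rw [abs_le] at c
    by_cases c1 : |a| ≤ T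
    · rw [h1 c1, ← e]
      have : F * l = |l| := by
        obtain rfl | rfl := hF
        · rw [abs_of_pos (by linarith)]; ring
        · rw [abs_of_neg (by linarith)]; ring
      split_ifs <;> linarith
    · obtain c1 | c1 := lt_abs.1 (not_le.1 c1)
      · have := h2 c1.le; obtain rfl | rfl := hF <;> linarith
      · have := h3 (by linarith); obtain rfl | rfl := hF <;> linarith
  · have : -(M * T + |τ|) ≤ F * (a' + τ) := by
      have := abs_le.1 h0; have := le_abs_self τ; have := neg_abs_le τ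
      obtain rfl | rfl := hF <;> linarith
    have : 1 + M * T + |τ| ≤ (4 * M + 4) / T * τ ^ 2 := by
      rw [← sq_abs, div_mul_eq_mul_div, le_div_iff₀ (by linarith)]
      push Not at c
      generalize |τ| = z at *
      have : T ^ 2 ≤ 4 * z ^ 2 := by nlinarith
      nlinarith [mul_le_mul_of_nonneg_left this hM]
    linarith

theorem chow1 {δ : ℝ} (hδ : 0 < δ) : ∃ c, 0 < c ∧ ∀ (ι : Type) [Fintype ι] [DecidableEq ι] (w : ι → ℝ) (θ : ℝ)
    (F μ : (ι → Bool) → ℝ), (∀ x, F x = 1 ∨ F x = -1) → (∀ x, 0 < F x * (L w x - θ)) → (∀ x, 0 ≤ μ x ∧ μ x ≤ 1) →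
    δ ≤ 𝔼 x, μ x → δ / 4 ≤ (𝔼 x, if |L w x - θ| ≤ 1 then (1 : ℝ) else 0) →
    (𝔼 x, if |L w x - θ| < 1 then (1 : ℝ) else 0) ≤ δ / 4 → c ^ 2 ≤ N1 fun x => μ x * F x := by
  choose C c0 hC using head
  obtain ⟨D, hD⟩ := exists_nat_ge (144 / δ ^ 2)
  let M := ∑ k ∈ range (D + 1), (k + 1) * C k
  have hM : 0 ≤ M := sum_nonneg fun k _ => by have := c0 k; positivity
  let T := 2 + (4 * M + 4) * D * 4 / δ
  have hT : 2 ≤ T := le_add_of_nonneg_right (by positivity)
  have hc : 0 < M * T + D + 1 := by positivity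
  refine ⟨δ / 2 / (M * T + D + 1), by positivity, fun ι _ _ w θ F μ hF hl hμ h1 h2 h3 => le_of_not_gt fun n => ?_⟩
  set c := δ / 2 / (M * T + D + 1) with hcc
  have cp : 0 < c := by positivity
  have a1 : ∑ i, cl 1 (w i) ^ 2 ≤ D := by
    refine le_trans ?_ hD
    rw [le_div_iff₀ (by positivity)]
    have := mul_le_mul_of_nonneg_right (pow_le_pow_left₀ (by positivity) h2 2)
      (show 0 ≤ ∑ i, cl 1 (w i) ^ 2 by positivity)
    nlinarith [anti w θ]
  let H : Finset ι := {i | 1 < |w i|}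
  let v : ι → ℝ := fun i => if i ∈ H then 0 else w i
  have a2 : (H.card : ℝ) ≤ D := by
    refine le_trans ?_ ((sum_le_sum_of_subset_of_nonneg (subset_univ H) fun _ _ _ => sq_nonneg _).trans a1)
    rw [card_eq_sum_ones, Nat.cast_sum]
    refine sum_le_sum fun i hi => ?_
    have := lt_abs.1 (mem_filter.1 hi).2
    obtain e | e := this
    · rw [cl, min_eq_left e.le]; norm_num
    · rw [cl, min_eq_right (by linarith), max_eq_left (by linarith)]; norm_num
  have a3 : ∑ i, v i ^ 2 ≤ D := (sum_le_sum fun i _ => by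
    simp only [v, H, mem_filter, mem_univ, true_and]
    split_ifs with e
    · simpa using sq_nonneg _
    · have := abs_le.1 (not_lt.1 e)
      rw [cl, min_eq_right this.2, max_eq_right this.1]).trans a1
  let g : Fin H.card → ι := fun j => H.equivFin.symm j
  obtain ⟨u, u1, u2⟩ := hC H.card (fun o => o.elim (-θ) fun j => w (g j)) T (by linarith)
  have b1 : (H.card + 1) * C H.card ≤ M :=
    single_le_sum (f := fun k : ℕ => ((k : ℝ) + 1) * C k) (fun k _ => by have := c0 k; positivity)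
      (mem_range.2 (Nat.lt_succ_of_le (by exact_mod_cast a2)))
  have b2 : ∀ z : Option (Fin H.card) → ℝ, ∀ r, (∀ o, |z o| ≤ r) →
      |u none * z none + ∑ j, u (some j) * z (some j)| ≤ M * T * r := fun z r hz => by
    have r0 := (abs_nonneg _).trans (hz none)
    rw [← Fintype.sum_option fun o => u o * z o]
    refine (abs_sum_le_sum_abs _ _).trans ((sum_le_card_nsmul _ _ (C H.card * T * r) fun o _ => ?_).trans ?_)
    · rw [abs_mul]; exact mul_le_mul (u1 o) (hz o) (abs_nonneg _) (by have := c0 H.card; positivity)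
    · simp only [card_univ, Fintype.card_option, Fintype.card_fin, nsmul_eq_mul, Nat.cast_add, Nat.cast_one, ← mul_assoc]
      gcongr
  have b3 : ∀ x, μ x - (if |L w x - θ| < 1 then 1 else 0) - (4 * M + 4) / T * L v x ^ 2 ≤
      μ x * F x * (aff (fun j => x (g j)) u + L v x) := fun x => by
    have := pt hT hM (hF x) (hl x) (τ := L v x) (a := aff (fun j => x (g j)) fun o => o.elim (-θ) fun j => w (g j))
      (a' := aff (fun j => x (g j)) u) (by
        rw [aff_apply, L, L, ← sum_add_sum_compl H, ← sum_add_sum_compl H (fun i => v i * _), ← sum_coe_sort H,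
          ← H.equivFin.symm.sum_comp, sum_eq_zero (s := H) fun i hi => by simp [v, hi],
          sum_congr (s₁ := Hᶜ) (f := fun i => v i * _) rfl fun i hi => by simp only [v]; rw [if_neg (mem_compl.1 hi)]]
        simp [g]; ring)
      (by simpa [aff_apply] using b2 (fun o => o.elim 1 fun j => s (x (g j))) 1 fun o => by cases o <;> simp)
      (u2 _).1 (u2 _).2.1 (u2 _).2.2
    have p : 0 ≤ (4 * M + 4) / T * L v x ^ 2 := by positivity
    have q : (0 : ℝ) ≤ if |L w x - θ| < 1 then 1 else 0 := by split_ifs <;> simp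
    nlinarith [mul_le_mul_of_nonneg_left this (hμ x).1, hμ x]
  have b4 := expect_le_expect (s := univ) fun x _ => b3 x
  rw [expect_sub_distrib, expect_sub_distrib, ← mul_expect, ex_sq] at b4
  simp only [aff_apply, L, mul_add, mul_sum, expect_add_distrib, expect_sum_comm, mul_left_comm (μ _ * F _),
    mul_comm (μ _ * F _) (u none), ← mul_expect] at b4
  have n0 : 0 ≤ ∑ i, (𝔼 x, μ x * F x * s (x i)) ^ 2 := by positivity
  have b5 := b2 (fun o => o.elim (𝔼 x, μ x * F x) fun j => 𝔼 x, μ x * F x * s (x (g j))) c fun o => by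
    refine abs_le_of_sq_le_sq' (le_trans ?_ n.le) cp.le |> abs_le.2
    cases o with
    | none => exact le_add_of_nonneg_right n0
    | some j =>
      exact le_add_of_nonneg_of_le (sq_nonneg _) (single_le_sum (f := fun i => (𝔼 x, μ x * F x * s (x i)) ^ 2)
        (fun _ _ => sq_nonneg _) (mem_univ (g j)))
  have b6 : ∑ i, v i * 𝔼 x, μ x * F x * s (x i) < (D + 1) * c := by
    refine lt_of_pow_lt_pow_left₀ 2 (by positivity) ((sum_mul_sq_le_sq_mul_sq _ _ _).trans_lt ?_)
    have : ∑ i, (𝔼 x, μ x * F x * s (x i)) ^ 2 ≤ c ^ 2 := (le_add_of_nonneg_left (sq_nonneg _)).trans n.le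
    refine (mul_le_mul a3 this n0 (by positivity)).trans_lt ?_
    rw [mul_pow]
    gcongr
    nlinarith [D.cast_nonneg (α := ℝ)]
  have b7 : (4 * M + 4) / T * ∑ i, v i ^ 2 ≤ δ / 4 := by
    refine (mul_le_mul_of_nonneg_left a3 (by positivity)).trans ?_
    rw [div_mul_eq_mul_div, div_le_iff₀ (by linarith)]
    simp only [T]
    field_simp
    nlinarith
  have b8 : (M * T + D + 1) * c = δ / 2 := by rw [hcc]; field_simp
  have := (abs_le.1 b5).2
  simp only [Option.elim, L, mul_sum] at this h3 b7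
  linarith

theorem chow {δ : ℝ} (hδ : 0 < δ) : ∃ c, 0 < c ∧ ∀ (ι : Type) [Fintype ι] [DecidableEq ι] (w : ι → ℝ) (θ : ℝ)
    (μ : (ι → Bool) → ℝ), (∀ x, 0 ≤ μ x ∧ μ x ≤ 1) → δ ≤ 𝔼 x, μ x →
    c ^ 2 ≤ N1 fun x => μ x * s (decide (θ ≤ L w x)) := by
  obtain ⟨c, c0, h⟩ := chow1 hδ
  refine ⟨c, c0, fun ι _ _ w θ μ hμ h1 => ?_⟩
  obtain ⟨θ', h2, h3⟩ : ∃ θ', (∀ x, L w x < θ → L w x < θ') ∧ θ' < θ := by
    refine (Filter.Eventually.and (f := nhdsWithin θ (Set.Iio θ)) (Filter.eventually_all.2 fun x => ?_)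
      self_mem_nhdsWithin).exists
    by_cases e : L w x < θ
    · exact (nhdsWithin_le_nhds (lt_mem_nhds e)) |> fun z => Filter.mem_of_superset z fun _ a _ => a
    · simp [e]
  have h4 : ∀ x, 0 < s (decide (θ ≤ L w x)) * (L w x - θ') := fun x => by
    by_cases e : θ ≤ L w x
    · simp [e, s]; linarith
    · simp [e, s]; exact h2 x (not_le.1 e)
  have h5 : δ ≤ 1 := h1.trans (expect_le univ_nonempty fun x _ => (hμ x).2)
  obtain ⟨y, hy, mn⟩ := exists_min_image
    (filter (fun y => δ / 4 ≤ 𝔼 x, if |L w x - θ'| ≤ |L w y - θ'| then (1 : ℝ) else 0) univ) (fun y => |L w y - θ'|) (by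
      obtain ⟨y, -, mx⟩ := exists_max_image univ (fun y => |L w y - θ'|) univ_nonempty
      exact ⟨y, by simp [mx]; linarith⟩)
  have p : 0 < |L w y - θ'| := abs_pos.2 (right_ne_zero_of_mul (h4 y).ne')
  set β := |L w y - θ'|
  have e : ∀ x, L (fun i => w i / β) x - θ' / β = (L w x - θ') / β := fun x => by
    simp only [L, sub_div, sum_div, div_mul_eq_mul_div]
  refine h ι (fun i => w i / β) (θ' / β) _ μ (fun x => by cases decide (θ ≤ L w x) <;> simp [s])
    (fun x => by rw [e, ← mul_div_assoc]; exact div_pos (h4 x) p) hμ h1 ?_ ?_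
  · simpa only [e, abs_div, abs_of_pos p, div_le_one p] using (mem_filter.1 hy).2
  · simp only [e, abs_div, abs_of_pos p, div_lt_one p]
    by_cases n : (filter (fun x => |L w x - θ'| < β) univ).Nonempty
    · obtain ⟨z, hz, mx⟩ := exists_max_image _ (fun y => |L w y - θ'|) n
      have : ¬ δ / 4 ≤ 𝔼 x, if |L w x - θ'| ≤ |L w z - θ'| then (1 : ℝ) else 0 := fun q =>
        (mn z (mem_filter.2 ⟨mem_univ _, q⟩)).not_gt (mem_filter.1 hz).2
      refine le_trans (expect_le_expect fun x _ => ?_) (not_le.1 this).le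
      by_cases q : |L w x - θ'| < β
      · rw [if_pos q, if_pos (mx x (mem_filter.2 ⟨mem_univ _, q⟩))]
      · rw [if_neg q]; split_ifs <;> simp
    · refine expect_le univ_nonempty fun x _ => ?_
      rw [if_neg fun q => n ⟨x, mem_filter.2 ⟨mem_univ _, q⟩⟩]; positivity

end Pool.Agent.H.MP_cd40e2_lc
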