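import Pool.Agent.H.MP_cd40e2_lc.B

set_option autoImplicit false

namespace Pool.Agent.H.MP_cd40e2_lc

open Finset
open scoped BigOperators

variable {ι : Type} [Fintype ι] [DecidableEq ι]

theorem dual {ε : ℝ} (f : (ι → Bool) → Bool)
    (h : ∀ w θ, ε ≤ 𝔼 x, if f x ≠ decide (θ ≤ L w x) then (1 : ℝ) else 0) :
    ∃ μ : (ι → Bool) → ℝ, (∀ x, 0 ≤ μ x ∧ μ x ≤ 1) ∧ ε ≤ 𝔼 x, μ x ∧ 𝔼 x, μ x * s (f x) = 0 ∧
      ∀ i, 𝔼 x, μ x * s (f x) * s (x i) = 0 := by
  let T : ((ι → Bool) → ℝ) →ₗ[ℝ] Option ι → ℝ :=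
    { toFun μ o := 𝔼 x, μ x * s (f x) * o.elim 1 fun i => s (x i)
      map_add' _ _ := by ext; simp [add_mul, expect_add_distrib]
      map_smul' _ _ := by ext; simp [mul_assoc, mul_expect] }
  let E : ((ι → Bool) → ℝ) →ₗ[ℝ] ℝ :=
    { toFun μ := 𝔼 x, μ x
      map_add' _ _ := by simp [expect_add_distrib]
      map_smul' _ _ := by simp [mul_expect] }
  let K : Set ((ι → Bool) → ℝ) := Set.Icc 0 1 ∩ E ⁻¹' Set.Ici ε
  by_contra n
  obtain ⟨φ, u, h1, h2⟩ := geometric_hahn_banach_point_closed (x := 0) (t := T '' K)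
    (((convex_Icc _ _).inter ((convex_Ici _).linear_preimage E)).linear_image T)
    ((isCompact_Icc.inter_right (isClosed_Ici.preimage E.continuous_of_finiteDimensional)).image
      T.continuous_of_finiteDimensional).isClosed fun ⟨μ, a, b⟩ => n ⟨μ, fun x => ⟨a.1.1 x, a.1.2 x⟩, a.2,
        by simpa [T] using congrFun b none, fun i => congrFun b (some i)⟩
  let w : ι → ℝ := fun i => φ (Pi.single (some i) 1)
  let θ := -φ (Pi.single none 1)
  have := h2 _ ⟨fun x => if f x ≠ decide (θ ≤ L w x) then (1 : ℝ) else 0,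
    ⟨⟨fun x => by dsimp; split_ifs <;> simp, fun x => by dsimp; split_ifs <;> simp⟩, h w θ⟩, rfl⟩
  have e : ∀ z : Option ι → ℝ, φ z = ∑ o, z o * φ (Pi.single o 1) := fun z => by
    conv_lhs => rw [← univ_sum_single z, map_sum]
    exact sum_congr rfl fun o _ => by rw [← smul_eq_mul, ← map_smul, ← Pi.single_smul, smul_eq_mul, mul_one]
  rw [map_zero] at h1
  rw [e] at this
  simp only [T, LinearMap.coe_mk, AddHom.coe_mk, expect_mul, ← expect_sum_comm, mul_assoc, ← mul_sum,
    Fintype.sum_option, Option.elim, one_mul] at this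
  refine (h1.trans this).not_ge (expect_le univ_nonempty fun x _ => ?_)
  rw [show φ (Pi.single none 1) + ∑ i, s (x i) * φ (Pi.single (some i) 1) = L w x - θ by
    simp only [L, w, θ, mul_comm]; ring]
  by_cases c : θ ≤ L w x <;> cases f x <;> simp [c, s]
  exact (not_le.1 c).le

theorem mom {k : ℕ} (hk : 0 < k) (d : ℕ) (hd : 2 ≤ d) :
    𝔼 t : Fin (k ^ 2) → Bool, (1 + ∑ b, s (t b)) * (𝔼 b, s (t b)) ^ d ≤ 48 / k := by
  have k1 : (1 : ℝ) ≤ k := by exact_mod_cast hk
  have a : ∀ σ : ℝ, σ ^ 2 = 1 → 𝔼 t : Fin (k ^ 2) → Bool, Real.exp (σ * (∑ b, s (t b)) / k) ≤ 3 := fun σ hσ => by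
    simp only [mul_sum, sum_div, Real.exp_sum]
    rw [ex_prod fun _ b => Real.exp (σ * s b / k), prod_const, ex_bool]
    have := Real.cosh_le_exp_half_sq (σ / k)
    rw [Real.cosh_eq] at this
    simp only [s, if_true, mul_one, Bool.false_eq_true, if_false, mul_neg, neg_div, card_univ, Fintype.card_fin]
    refine (pow_le_pow_left₀ (by positivity) this _).trans ?_
    rw [← Real.exp_nat_mul, div_pow, hσ]
    refine (Real.exp_le_exp.2 (le_of_le_of_eq ?_ rfl)).trans (Real.exp_one_lt_d9.le.trans (by norm_num))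
    push_cast; field_simp; norm_num
  have b : ∀ t : Fin (k ^ 2) → Bool, (1 + ∑ b, s (t b)) * (𝔼 b, s (t b)) ^ d ≤
      8 / k * (Real.exp (1 * (∑ b, s (t b)) / k) + Real.exp (-1 * (∑ b, s (t b)) / k)) := fun t => by
    have z1 : |∑ b, s (t b)| ≤ k ^ 2 := (abs_sum_le_sum_abs _ _).trans (by simp)
    rw [expect_eq_sum_div_card]
    simp only [card_univ, Fintype.card_fin, Nat.cast_pow]
    generalize ∑ b, s (t b) = z at *
    have z2 : Real.exp (|z| / k) ≤ Real.exp (1 * z / k) + Real.exp (-1 * z / k) := by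
      rcases abs_choice z with e | e <;> rw [e] <;> simp [Real.exp_nonneg]
    have z3 := Real.pow_div_factorial_le_exp _ (show 0 ≤ |z| / k by positivity) 2
    have z4 := Real.pow_div_factorial_le_exp _ (show 0 ≤ |z| / k by positivity) 3
    refine (le_abs_self _).trans (le_trans ?_ (mul_le_mul_of_nonneg_left z2 (by positivity)))
    rw [abs_mul, abs_pow, abs_div, abs_of_nonneg (show 0 ≤ (k : ℝ) ^ 2 by positivity)]
    have z5 : |1 + z| ≤ 1 + |z| := (abs_add_le _ _).trans (by simp)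
    refine (mul_le_mul z5 (pow_le_pow_of_le_one (by positivity) ((div_le_one (by positivity)).2 z1) hd)
      (by positivity) (by positivity)).trans ?_
    have z0 := abs_nonneg z
    generalize |z| = y at *
    have : (1 + y) * (y / k ^ 2) ^ 2 = (y / k) ^ 2 / k / k + (y / k) ^ 3 / k := by field_simp
    rw [this, div_mul_eq_mul_div, ← add_div]
    gcongr
    have : (y / k) ^ 2 / k ≤ (y / k) ^ 2 := div_le_self (by positivity) k1
    norm_num [Nat.factorial] at z3 z4
    linarith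
  refine (expect_le_expect fun t _ => b t).trans ?_
  rw [← mul_expect, expect_add_distrib]
  refine (mul_le_mul_of_nonneg_left (add_le_add (a 1 (by simp)) (a (-1) (by simp))) (by positivity)).trans_eq (by ring)

def pnt {κ : Type} (ω : (ι → κ) × (ι → Bool)) (t : κ → Bool) : ι → Bool := fun i => t (ω.1 i) == ω.2 i

theorem ex_shift (y : ι → Bool) (φ : (ι → Bool) → ℝ) : 𝔼 x : ι → Bool, φ (fun i => y i == x i) = 𝔼 x, φ x :=
  Fintype.expect_bijective _ (Function.Involutive.bijective (f := fun x i => y i == x i) fun x => by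
    ext i; cases y i <;> simp) _ _ fun _ => rfl

theorem hash {k : ℕ} (hk : 0 < k) (g : (ι → Bool) → ℝ) (h1 : ∀ x, g x * g x ≤ 1) (h2 : 𝔼 x, g x = 0)
    (h3 : ∀ i, 𝔼 x, g x * s (x i) = 0) :
    𝔼 ω : (ι → Fin (k ^ 2)) × (ι → Bool), N1 (fun t => g (pnt ω t)) ≤ 48 / k := by
  have : Nonempty (Fin (k ^ 2)) := ⟨⟨0, by positivity⟩⟩
  have e : ∀ G : (Fin (k ^ 2) → Bool) → ℝ, N1 G = 𝔼 t, 𝔼 t' : Fin (k ^ 2) → Bool, (1 + ∑ b, s (t' b)) * (G t * G fun b => t b == t' b) :=
    fun G => by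
      simp only [N1, sq, Fintype.expect_mul_expect, ← expect_sum_comm, ← expect_add_distrib]
      refine expect_congr rfl fun t _ => ?_
      rw [← ex_shift t]
      refine expect_congr rfl fun t' _ => ?_
      simp only [add_mul, one_mul, sum_mul, s_beq]
      exact congrArg _ (sum_congr rfl fun b _ => by
        linear_combination (G t * G (fun b => t b == t' b) * s (t' b)) * s_sq (t b))
  simp only [e]
  rw [expect_comm]
  refine expect_le univ_nonempty fun t _ => ?_
  rw [expect_comm]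
  have e2 : ∀ t' : Fin (k ^ 2) → Bool, 𝔼 ω : (ι → Fin (k ^ 2)) × (ι → Bool), g (pnt ω t) * g (pnt ω fun b => t b == t' b) =
      ∑ S, co g S ^ 2 * (𝔼 b, s (t' b)) ^ S.card := fun t' => by
    rw [← stab, ← univ_product_univ, expect_product]
    refine expect_congr rfl fun h _ => ?_
    rw [← ex_shift (fun i => t (h i)) fun x => g x * g fun i => t' (h i) == x i]
    refine expect_congr rfl fun x _ => congrArg _ (congrArg _ (funext fun i => ?_))
    simp only [pnt]
    cases t (h i) <;> cases t' (h i) <;> simp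
  simp only [← mul_expect, e2, mul_sum, expect_sum_comm, mul_left_comm _ (co g _ ^ 2)]
  refine (sum_le_sum (g := fun S => co g S ^ 2 * (48 / k)) fun S _ => ?_).trans ?_
  · by_cases c : 2 ≤ S.card
    · exact mul_le_mul_of_nonneg_left (mom hk _ c) (sq_nonneg _)
    · obtain rfl | ⟨i, rfl⟩ : S = ∅ ∨ ∃ i, S = {i} := by
        rw [← card_eq_zero, ← card_eq_one]; omega
      · simp [co, χ, h2]
      · simp [co, χ, h3]
  · rw [← sum_mul, parseval]
    exact mul_le_of_le_one_left (by positivity) (expect_le univ_nonempty fun x _ => h1 x)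

open Classical in
theorem round {ε : ℝ} (hε : 0 < ε) : ∃ m, 0 < m ∧ ∀ (ι : Type) [Fintype ι] [DecidableEq ι] (f : (ι → Bool) → Bool),
    (∀ w θ, ε ≤ 𝔼 x, if f x ≠ decide (θ ≤ L w x) then (1 : ℝ) else 0) →
    𝔼 ω : (ι → Fin m) × (ι → Bool), (if ∃ w θ, ∀ t, f (pnt ω t) = decide (θ ≤ L w (pnt ω t)) then (1 : ℝ) else 0) ≤
      1 - ε / 4 := by
  obtain ⟨c, c0, hc⟩ := chow (half_pos hε)
  obtain ⟨k, hk⟩ := exists_nat_gt (192 / (ε * c ^ 2))
  have k0 : (0 : ℝ) < k := lt_trans (by positivity) hk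
  have k1 : 0 < k := by exact_mod_cast k0
  refine ⟨k ^ 2, by positivity, fun ι _ _ f hf => ?_⟩
  have : Nonempty (Fin (k ^ 2)) := ⟨⟨0, by positivity⟩⟩
  obtain ⟨μ, h1, h2, h3, h4⟩ := dual f hf
  have a := hash k1 (fun x => μ x * s (f x)) (fun x => by
    rw [mul_mul_mul_comm, s_sq, mul_one]; exact mul_le_one₀ (h1 x).2 (h1 x).1 (h1 x).2) h3 h4
  have b : 𝔼 ω : (ι → Fin (k ^ 2)) × (ι → Bool), 𝔼 t, μ (pnt ω t) = 𝔼 x, μ x := by
    rw [expect_comm, ← Fintype.expect_const (ι := Fin (k ^ 2) → Bool) (𝔼 x, μ x)]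
    refine expect_congr rfl fun t _ => ?_
    rw [← univ_product_univ, expect_product, ← Fintype.expect_const (ι := ι → Fin (k ^ 2)) (𝔼 x, μ x)]
    exact expect_congr rfl fun h _ => ex_shift (fun i => t (h i)) μ
  refine (expect_le_expect (g := fun ω => 1 + ε / 2 - 𝔼 t, μ (pnt ω t) +
    N1 (fun t => μ (pnt ω t) * s (f (pnt ω t))) / c ^ 2) fun ω _ => ?_).trans ?_
  · have p : 0 ≤ N1 (fun t => μ (pnt ω t) * s (f (pnt ω t))) / c ^ 2 := by unfold N1; positivity
    have q : 𝔼 t, μ (pnt ω t) ≤ 1 := expect_le univ_nonempty fun x _ => (h1 _).2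
    split_ifs with e
    swap
    · linarith
    obtain ⟨w, θ, e⟩ := e
    by_cases n : ε / 2 ≤ 𝔼 t, μ (pnt ω t)
    swap
    · linarith
    have := hc _ (fun b => ∑ i with ω.1 i = b, w i * s (ω.2 i)) θ _ (fun t => h1 (pnt ω t)) n
    have e' : ∀ t, L (fun b => ∑ i with ω.1 i = b, w i * s (ω.2 i)) t = L w (pnt ω t) := fun t => by
      simp only [L, pnt, s_beq, sum_mul]
      rw [← sum_fiberwise univ ω.1]
      exact sum_congr rfl fun b _ => sum_congr rfl fun i hi => by rw [(mem_filter.1 hi).2]; ring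
    simp only [e', ← e] at this
    have := (one_le_div (by positivity)).2 this
    linarith
  · rw [expect_add_distrib, expect_sub_distrib, ← expect_div, b, Fintype.expect_const]
    have : 48 / k / c ^ 2 ≤ ε / 4 := by
      rw [div_lt_iff₀ (by positivity)] at hk
      rw [div_div, div_le_iff₀ (by positivity)]
      nlinarith
    linarith [div_le_div_of_nonneg_right a (sq_nonneg c)]

end Pool.Agent.H.MP_cd40e2_lc
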